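import Pool.Agent.P.MP_1b44ce_gt.Geo
import Pool.Agent.P.MP_1b44ce_gt.Theta

namespace Pool.Agent.Results.MP_1b44ce_gt.NoSublinear

open Pool.Agent.P.MP_1b44ce_gt Set Filter Topology
open scoped Real

/-- For every `n ≥ 3`, `α < 1` and `C` there is a closed connected Riemannian `n`-manifold
`M = ℝⁿ / Γ` with `Ric ≥ -(n-1) κ` and an index `k ≥ 1` with
`mₖ > C (k ^ α + Vol (κ ^ (n / 2) + inj ^ (-n)))`. -/
theorem result (n : ℕ) (hn : 3 ≤ n) (α : ℝ) (hα : α < 1) (C : ℝ) :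
    ∃ (M : QuotMfd n) (κ : ℝ) (k : ℕ), 0 ≤ κ ∧ M.RicGe κ ∧ 1 ≤ k ∧ 0 < M.inj ∧
      C * ((k : ℝ) ^ α + M.vol * (κ ^ ((n : ℝ) / 2) + M.inj ^ (-(n : ℝ)))) < M.mult k := by
  obtain ⟨d, rfl⟩ : ∃ d, n = d + 3 := ⟨n - 3, by omega⟩
  set C' := max C 0 with hC'
  have hC0 : 0 ≤ C' := le_max_right _ _
  obtain ⟨m, hm⟩ := exists_nat_gt (2 * C' * (2 + 4 ^ (d + 3)))
  have hm0 : 0 < m := by
    have : (0 : ℝ) < m := lt_of_le_of_lt (by positivity) hm
    exact_mod_cast this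
  set t : ℝ := 4 * π ^ 2 * m ^ 2 + 2 * π * m with ht
  have ht0 : 0 < t := by positivity
  obtain ⟨c, hc⟩ := count d t
  set β := max α 0 with hβ
  have hβ0 : 0 ≤ β := le_max_right _ _
  have hβ1 : β < 1 := max_lt hα one_pos
  obtain ⟨A, hA⟩ : ∃ A : ℕ, ((c : ℝ) * (A + 1)) ^ β ≤ A + 1 := by
    have h1 : Tendsto (fun A : ℕ => ((A : ℝ) + 1) ^ (1 - β)) atTop atTop :=
      (tendsto_rpow_atTop (by linarith)).comp
        (tendsto_atTop_add_const_right _ _ tendsto_natCast_atTop_atTop)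
    obtain ⟨A, hA⟩ := (h1.eventually_ge_atTop ((c : ℝ) ^ β)).exists
    refine ⟨A, ?_⟩
    have h2 : (0 : ℝ) < A + 1 := by positivity
    rw [Real.mul_rpow (by positivity) h2.le]
    calc _ ≤ ((A : ℝ) + 1) ^ (1 - β) * ((A : ℝ) + 1) ^ β := by gcongr
      _ = _ := by rw [← Real.rpow_add h2]; simp
  set W := ⨆ μ ∈ Iic t, Eig d A μ with hW
  set W' := ⨆ μ ∈ Iio t, Eig d A μ with hW'
  have hfin : Module.Finite ℝ W :=
    Module.rank_lt_aleph0_iff.1 ((hc A).trans_lt Cardinal.natCast_lt_aleph0)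
  have hle : W' ≤ W := biSup_mono fun μ (h : μ < t) => h.le
  have hle' : Eig d A t ≤ W := le_biSup (Eig d A) (mem_Iic.2 le_rfl)
  have hfin' : Module.Finite ℝ W' := Submodule.finiteDimensional_of_le hle
  have hfin'' : Module.Finite ℝ (Eig d A t) := Submodule.finiteDimensional_of_le hle'
  have hmult := mult_ge (d := d) (A := A) hm0
  rw [← ht] at hmult
  set k := Module.finrank ℝ W' with hk
  have hkc : k ≤ c * (A + 1) := by
    refine (Submodule.finrank_mono hle).trans ?_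
    have := hc A
    rw [← Module.finrank_eq_rank] at this
    exact_mod_cast this
  have hk1 : 1 ≤ k := by
    have h1 : (fun _ => 1 : E d → ℝ) ∈ Eig d A 0 := by
      have h : ∀ (i : Fin (d + 3)) (a : ℝ), X i (fun _ => a) = fun _ => 0 := fun i a => by
        funext p; simp [X, pd]
      exact ⟨contDiff_const, fun u hu x => rfl, fun x => by simp [h]⟩
    have h2 : (fun _ => 1 : E d → ℝ) ∈ W' := le_biSup (Eig d A) (show 0 ∈ Iio t from ht0) h1
    refine Module.finrank_pos_iff_exists_ne_zero.2 ⟨⟨_, h2⟩, fun h => ?_⟩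
    simpa using congrFun (congrArg Subtype.val h) 0
  -- `λₖ = t`
  have hlt : k < Module.finrank ℝ W := by
    refine Submodule.finrank_lt_finrank_of_lt (lt_of_le_of_ne hle fun heq => ?_)
    have hpos : 0 < Module.finrank ℝ (Eig d A t) := by
      have : 0 < m * (A + 1) := by positivity
      omega
    obtain ⟨⟨g, hg⟩, hg0⟩ := Module.finrank_pos_iff_exists_ne_zero.1 hpos
    have hgW : g ∈ W' := heq ▸ hle' hg
    obtain ⟨φ, h1, h2⟩ := (Submodule.mem_iSup_iff_exists_finsupp _ _).1 hgW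
    have h3 : ∀ μ ∈ φ.support, μ < t ∧ φ μ ∈ Eig d A μ := fun μ hμ => by
      by_cases hμt : μ ∈ Iio t
      · have := h1 μ
        rw [iSup_pos hμt] at this
        exact ⟨hμt, this⟩
      · have := h1 μ
        rw [iSup_neg hμt] at this
        exact absurd this (Finsupp.mem_support_iff.1 hμ)
    have h4 := (rayleigh_sum (A := A) (t := t) φ φ.support fun μ hμ =>
      ⟨(h3 μ hμ).1.le, (h3 μ hμ).2⟩).2.2.1 t (fun h => lt_irrefl _ (h3 t h).1) g hg
    have h5 : ∑ μ ∈ φ.support, φ μ = g := h2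
    rw [h5] at h4
    exact hg0 (Subtype.ext (eq_zero_of_B hg.1.continuous hg.2.1 h4))
  have hev : (HM d A).eigval k = t := by
    have : {s : ℝ | (k : Cardinal) < Module.rank ℝ ↥(⨆ μ ∈ Iic s, (HM d A).eigsp μ)} = Ici t := by
      ext s
      rw [show (HM d A).eigsp = Eig d A from funext (eigsp_eq A)]
      simp only [mem_ofPred_eq, mem_Ici]
      constructor
      · intro h
        by_contra hs
        push Not at hs
        have h1 : (⨆ μ ∈ Iic s, Eig d A μ) ≤ W' :=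
          biSup_mono fun μ (h : μ ≤ s) => lt_of_le_of_lt h hs
        have h2 := h.trans_le (Submodule.rank_mono h1)
        rw [← Module.finrank_eq_rank] at h2
        exact lt_irrefl _ h2
      · intro h
        have h1 : W ≤ ⨆ μ ∈ Iic s, Eig d A μ := biSup_mono fun μ (h' : μ ≤ t) => h'.trans h
        refine lt_of_lt_of_le ?_ (Submodule.rank_mono h1)
        rw [← Module.finrank_eq_rank]
        exact_mod_cast hlt
    rw [QuotMfd.eigval, this, csInf_Ici]
  have hinj := inj_ge (d := d) A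
  refine ⟨HM d A, 1, k, zero_le_one, ricGe _ rfl, hk1, by linarith, ?_⟩
  rw [QuotMfd.mult, hev, eigsp_eq, HM_vol, Real.one_rpow]
  have hk1' : (1 : ℝ) ≤ k := by exact_mod_cast hk1
  have h1 : (k : ℝ) ^ α ≤ A + 1 := by
    calc (k : ℝ) ^ α ≤ (k : ℝ) ^ β := Real.rpow_le_rpow_of_exponent_le hk1' (le_max_left _ _)
      _ ≤ ((c : ℝ) * (A + 1)) ^ β := by
          gcongr
          exact_mod_cast hkc
      _ ≤ _ := hA
  have h2 : (HM d A).inj ^ (-((d + 3 : ℕ) : ℝ)) ≤ 4 ^ (d + 3) := by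
    rw [Real.rpow_neg (by linarith), Real.rpow_natCast, ← inv_pow]
    gcongr
    rw [inv_le_comm₀ (by linarith) (by norm_num)]
    linarith
  have h3 : (0 : ℝ) ≤ (HM d A).inj ^ (-((d + 3 : ℕ) : ℝ)) := Real.rpow_nonneg (by linarith) _
  have h4 : (m : ℝ) * (A + 1) ≤ 2 * Module.finrank ℝ (Eig d A t) := by exact_mod_cast hmult
  have h5 : (0 : ℝ) < A + 1 := by positivity
  calc _ ≤ C' * ((k : ℝ) ^ α + (A + 1) * (1 + (HM d A).inj ^ (-((d + 3 : ℕ) : ℝ)))) := by
        gcongr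
        exact le_max_left _ _
    _ ≤ C' * ((A + 1) + (A + 1) * (1 + 4 ^ (d + 3))) := by gcongr
    _ = (2 * C' * (2 + 4 ^ (d + 3))) * (A + 1) / 2 := by ring
    _ < m * (A + 1) / 2 := by gcongr
    _ ≤ _ := by linarith

end Pool.Agent.Results.MP_1b44ce_gt.NoSublinear
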